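import Pool.Agent.Lib_helper33.TM32.Z2

/-!
TM32, block T1 (helper20): the symbol `T(x,y)`.
-/

set_option autoImplicit false

namespace Pool.Agent.TM32

open Zsqrtd

theorem T1_norm (y : Z8) :
    (QuadraticAlgebra.norm y : Zs) = y.re ^ 2 + sq * (y.re * y.im) - y.im ^ 2 := by
  rw [QuadraticAlgebra.norm_def]
  ring

theorem T1_re (x y : Z8) : (x * y).re = x.re * y.re + x.im * y.im := by
  rw [QuadraticAlgebra.re_mul]
  ring

theorem sqf_coprime {y : Z8} (h : Squarefree (N8 y)) : IsCoprime y.re y.im := by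
  rw [← EuclideanDomain.gcd_isUnit_iff]
  set d := EuclideanDomain.gcd y.re y.im with hd
  obtain ⟨a, ha⟩ := EuclideanDomain.gcd_dvd_left y.re y.im
  obtain ⟨b, hb⟩ := EuclideanDomain.gcd_dvd_right y.re y.im
  rw [← hd] at ha hb
  have h1 : (QuadraticAlgebra.norm y : Zs) = d * d * (a ^ 2 + sq * (a * b) - b ^ 2) := by
    rw [T1_norm, ha, hb]
    ring
  have h2 : d.norm * d.norm ∣ N8 y := by
    unfold N8
    rw [h1, Zsqrtd.norm_mul, Zsqrtd.norm_mul]
    exact Dvd.intro _ rfl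
  have h3 := h _ h2
  have h4 : IsUnit d.norm.natAbs := Int.isUnit_iff_natAbs_eq.1 h3 ▸ isUnit_one
  exact (Zsqrtd.norm_eq_one_iff).1 (Nat.isUnit_iff.1 h4)

/-- the norm of `y` has odd norm and even imaginary part -/
theorem T1_par {y : Z8} (hy : Wp y) : (QuadraticAlgebra.norm y : Zs).norm % 2 = 1 ∧
    (QuadraticAlgebra.norm y : Zs).im % 2 = 0 := by
  obtain ⟨⟨h1, h2⟩, h3⟩ := hy
  have e1 : (QuadraticAlgebra.norm y : Zs).re = y.re.re ^ 2 - 2 * y.re.im ^ 2
      - 2 * (y.re.re * y.im.im + y.re.im * y.im.re) - (y.im.re ^ 2 - 2 * y.im.im ^ 2) := by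
    rw [QuadraticAlgebra.norm_def]
    simp only [Zsqrtd.re_add, Zsqrtd.re_sub, Zsqrtd.re_mul, Zsqrtd.im_mul, Zsqrtd.re_one,
      Zsqrtd.im_one]
    ring
  have e2 : (QuadraticAlgebra.norm y : Zs).im = 2 * y.re.re * y.re.im
      + (y.re.re * y.im.re - 2 * y.re.im * y.im.im) - 2 * y.im.re * y.im.im := by
    rw [QuadraticAlgebra.norm_def]
    simp only [Zsqrtd.re_mul, Zsqrtd.im_add, Zsqrtd.im_sub, Zsqrtd.im_mul, Zsqrtd.re_one,
      Zsqrtd.im_one]
    ring
  obtain ⟨a, ha⟩ : ∃ a, y.re.re = 2 * a + 1 := ⟨y.re.re / 2, by omega⟩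
  obtain ⟨b, hb⟩ : ∃ b, y.re.im = 2 * b := ⟨y.re.im / 2, by omega⟩
  obtain ⟨c, hc⟩ : ∃ c, y.im.re = 2 * c := ⟨y.im.re / 2, by omega⟩
  constructor
  · rw [nv, e1, e2, ha, hb, hc]
    ring_nf
    omega
  · rw [e2, ha, hb, hc]
    ring_nf
    omega

theorem T1_cop {y : Z8} (h : IsCoprime y.re y.im) :
    IsCoprime y.re (QuadraticAlgebra.norm y : Zs) := by
  have h1 : (QuadraticAlgebra.norm y : Zs) = -(y.im * y.im) + (y.re + sq * y.im) * y.re := by
    rw [T1_norm]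
    ring
  rw [h1]
  refine IsCoprime.add_mul_right_right ?_ _
  exact (IsCoprime.mul_right h h).neg_right

theorem T1_A {y : Z8} (hy : Wp y) (h : IsCoprime y.re y.im) :
    qs y.re (QuadraticAlgebra.norm y) = 1 := by
  obtain ⟨hN, hNi⟩ := T1_par hy
  obtain ⟨⟨h1, h2⟩, h3⟩ := hy
  have hA : y.re.norm % 2 = 1 := by
    obtain ⟨a, ha⟩ : ∃ a, y.re.re = 2 * a + 1 := ⟨y.re.re / 2, by omega⟩
    rw [nv, ha]
    ring_nf
    omega
  have hc := T1_cop h
  have e1 := qs_recip hA hN hc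
  have e2 : rho y.re (QuadraticAlgebra.norm y) = 1 := by
    unfold rho
    rw [if_pos h2, if_pos hNi]
  have e3 : qs (QuadraticAlgebra.norm y : Zs) y.re = qs (-1 * (y.im * y.im)) y.re := by
    refine qs_congr hA ?_
    rw [T1_norm]
    exact ⟨y.re + sq * y.im, by ring⟩
  have e4 : qs (-1 * (y.im * y.im)) y.re = 1 := by
    rw [qs_mul_left _ _ hA, qs_mul_left _ _ hA, qs_neg_one hA]
    have e5 : rho (-1) y.re = 1 := by
      unfold rho
      rw [if_pos (by simp), if_pos h2]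
    rw [e5]
    rcases qs_pm hA h.symm with h6 | h6 <;> rw [h6] <;> norm_num
  rw [e3, e4, mul_one, e2] at e1
  exact e1

theorem T_mul (x x' : Z8) {y : Z8} (hy : Wp y) (h : IsCoprime y.re y.im) :
    T (x * x') y = T x y * T x' y := by
  have hN := (T1_par hy).1
  have hA := T1_A hy h
  unfold T
  rw [← qs_mul_left _ _ hN, ← mul_one (qs (x * x' * y).re _), ← hA, ← qs_mul_left _ _ hN]
  refine qs_congr hN ?_
  rw [T1_norm]
  refine ⟨x.im * x'.im, ?_⟩
  rw [T1_re, T1_re, T1_re, QuadraticAlgebra.re_mul, QuadraticAlgebra.im_mul]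
  ring

theorem T_per (x x' : Z8) {y : Z8} (hy : Wp y) (h : IsCoprime y.re y.im) :
    T (x + (((N8 y).natAbs : ℕ) : Z8) * x') y = T x y := by
  have hN := (T1_par hy).1
  have h0 : ((((N8 y).natAbs : ℕ) : Z8)) = QuadraticAlgebra.C ((N8 y : ℤ) : Zs) := by
    rw [QuadraticAlgebra.C_intCast]
    have : (((N8 y).natAbs : ℕ) : ℤ) = N8 y := by
      rw [Int.natCast_natAbs, abs_of_nonneg (N8_nonneg y)]
    rw [← Int.cast_natCast (R := Z8), this]
  unfold T
  refine qs_congr hN ?_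
  have h1 : ((x + (((N8 y).natAbs : ℕ) : Z8) * x') * y).re - (x * y).re
      = ((N8 y : ℤ) : Zs) * (x' * y).re := by
    rw [h0, add_mul, QuadraticAlgebra.re_add, mul_assoc]
    rw [T1_re (QuadraticAlgebra.C _)]
    simp
  rw [h1]
  refine Dvd.dvd.mul_right ?_ _
  unfold N8
  rw [Zsqrtd.norm_eq_mul_conj]
  exact Dvd.intro _ rfl

theorem T_int (u : ℤ) {y : Z8} (hy : Wp y) (h : IsCoprime y.re y.im) :
    T (u : Z8) y = jacobiSym u (N8 y).natAbs := by
  have hN := (T1_par hy).1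
  have hA := T1_A hy h
  unfold T
  have h1 : ((u : Z8) * y).re = (u : Zs) * y.re := by
    rw [← QuadraticAlgebra.C_intCast, T1_re]
    simp
  rw [h1, qs_mul_left _ _ hN, hA, mul_one, qs_int u hN]
  rfl

theorem T_val (x : Z8) {y : Z8} (hy : Wp y) (h : IsCoprime y.re y.im) :
    T x y = 0 ∨ T x y = 1 ∨ T x y = -1 := by
  have hN := (T1_par hy).1
  unfold T
  by_cases hc : IsCoprime (x * y).re (QuadraticAlgebra.norm y : Zs)
  · right
    exact qs_pm hN hc
  · left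
    exact qs_zero hN hc

end Pool.Agent.TM32
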